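import Pool.Agent.Lib.MP_c40b92_nt.Approx2

/-!
Let `σ` be a non-real embedding of a field `K` into the complex numbers that sends no non-zero
element to a purely imaginary number. The closed unit ball of `σ` is Diophantine over `K` if and
only if some Diophantine subset of `K` with an interior point is not dense and some Diophantine
subset of a finite extension lies at finite Hausdorff distance from a real line through zero.
-/

namespace Pool.Agent.Results.MP_c40b92_nt.Approximate

open Pool.Agent.Lib.MP_c40b92_nt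

theorem result (K : Type) [Field K] (σ : K →+* ℂ) (hσ : ∃ a, (σ a).im ≠ 0)
    (h0 : ∀ d, (σ d).re = 0 → d = 0) :
    Diophantine {x : K | ‖σ x‖ ≤ 1} ↔
      (∃ (D : Set K) (a : K) (ε : ℝ), Diophantine D ∧ 0 < ε ∧
        (∀ x, ‖σ x - σ a‖ < ε → x ∈ D) ∧ ¬Dense (σ '' D)) ∧
      ∃ (L : Type) (_ : Field L) (_ : Algebra K L) (_ : FiniteDimensional K L) (τ : L →+* ℂ)
        (S : Set L) (u : ℂ) (c : ℝ), (∀ x, τ (algebraMap K L x) = σ x) ∧ Diophantine S ∧ u ≠ 0 ∧
        (∀ s ∈ S, ∃ t : ℝ, ‖τ s - t * u‖ ≤ c) ∧ ∀ t : ℝ, ∃ s ∈ S, ‖τ s - t * u‖ ≤ c :=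
  ball_iff_approx σ hσ h0

end Pool.Agent.Results.MP_c40b92_nt.Approximate
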