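import Pool.Agent.Lib.MP_c40b92_nt.Core

/-!
Let `S` be a set of embeddings of a number field `K` into the complex numbers, each of which sends
some non-zero element to a purely imaginary number. The closed unit balls of all members of `S` are
Diophantine over `K` if and only if the subfield of the elements all of whose images under
automorphisms of `K` are real under all members of `S` is Diophantine over `K`.
-/

namespace Pool.Agent.Results.MP_c40b92_nt.RealCore

open Pool.Agent.Lib.MP_c40b92_nt

theorem result (K : Type) [Field K] [NumberField K] (S : Set (K →+* ℂ))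
    (hS : ∀ σ ∈ S, ∃ d : K, d ≠ 0 ∧ (σ d).re = 0) :
    (∀ σ ∈ S, Diophantine {x : K | ‖σ x‖ ≤ 1}) ↔
      Diophantine {x : K | ∀ σ ∈ S, ∀ g : K ≃+* K, (σ (g x)).im = 0} :=
  balls_iff_core S hS

end Pool.Agent.Results.MP_c40b92_nt.RealCore
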