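import Pool.Agent.Lib.MP_c40b92_nt.All

/-!
For every number field `K` and every embedding `σ` of `K` into the complex numbers, the closed unit
ball of `σ` is Diophantine over `K` as soon as some Diophantine set of elements that are real under
`σ` contains finite subsets with small iterated sumsets.
-/

namespace Pool.Agent.Results.MP_c40b92_nt.SmallSumsets

open Pool.Agent.Lib.MP_c40b92_nt
open scoped Pointwise

theorem result (K : Type) [Field K] [NumberField K] (σ : K →+* ℂ) (A : Set K)
    (hA : Diophantine A) (hr : ∀ x ∈ A, (σ x).im = 0) (m : ℕ)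
    (H : ∀ h : ℕ, ∃ N : Set K, N ⊆ A ∧ N.Finite ∧ (h • N).ncard < N.ncard ^ m) :
    Diophantine {x : K | ‖σ x‖ ≤ 1} :=
  ball_of_sumset σ hA hr H

end Pool.Agent.Results.MP_c40b92_nt.SmallSumsets
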